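import Pool.Agent.Helper143.OneMax.Step

set_option autoImplicit false

namespace Pool.Agent.Results.MP_f3079c_lc.BinaryLinear

open scoped ENNReal BigOperators

/-! ### The model -/

/-- Search points: bit strings of length `n`. -/
abbrev Pt (n : ℕ) : Type := Fin n → Bool

/-- Coordinatewise exclusive or. -/
def xorPt {n : ℕ} (x w : Pt n) : Pt n := fun i => xor (x i) (w i)

/-- Permutation of the coordinates. -/
def permPt {n : ℕ} (σ : Equiv.Perm (Fin n)) (x : Pt n) : Pt n := fun i => x (σ i)

/-- The OneMax function with target `z`: the number of coordinates in which `x` agrees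
with `z`. -/
def om {n : ℕ} (z x : Pt n) : ℕ := (Finset.univ.filter (fun i => x i = z i)).card

/-- `y` is a maximiser of `f`. -/
def IsMaximiser {n : ℕ} (f : Pt n → ℕ) (y : Pt n) : Prop := ∀ x : Pt n, f x ≤ f y

/-- A `j`-ary unbiased variation operator: a family of probability distributions on the search
points, indexed by `j`-tuples of search points, invariant under exclusive or with a fixed string
and under permutations of the coordinates. -/
structure UnbiasedOp (n j : ℕ) where
  law : (Fin j → Pt n) → PMF (Pt n)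
  xor_inv : ∀ (x : Fin j → Pt n) (w y : Pt n),
    law (fun i => xorPt (x i) w) (xorPt y w) = law x y
  perm_inv : ∀ (x : Fin j → Pt n) (σ : Equiv.Perm (Fin n)) (y : Pt n),
    law (fun i => permPt σ (x i)) (permPt σ y) = law x y

/-- What a `k`-ary algorithm decides when `t` points have been queried: an arity at most `k`,
which earlier points are the parents, and an unbiased operator of this arity. -/
structure Choice (n k t : ℕ) where
  arity : ℕ
  arity_le : arity ≤ k
  parent : Fin arity → Fin t
  op : UnbiasedOp n arity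

/-- The distribution of the next query point when the points queried so far are `h`. -/
noncomputable def Choice.nextPoint {n k t : ℕ} (c : Choice n k t) (h : Fin t → Pt n) :
    PMF (Pt n) :=
  c.op.law (fun i => h (c.parent i))

/-- A `k`-ary unbiased black-box algorithm. Its own randomness is a random element of a
probability space `Ω`; after `t + 1` queries the choice depends on this random element and on the
observed function values only. (The first query is uniformly random.) -/
structure Algorithm (n k : ℕ) where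
  Ω : Type
  mΩ : MeasurableSpace Ω
  P : MeasureTheory.Measure Ω
  prob : P Set.univ = 1
  choose : Ω → (t : ℕ) → (Fin (t + 1) → ℕ) → Choice n k (t + 1)
  meas : ∀ (t : ℕ) (v : Fin (t + 1) → ℕ) (h : Fin (t + 1) → Pt n) (y : Pt n),
    Measurable (fun ω => (choose ω t v).nextPoint h y)

/-- The distribution of the next query point for the objective function `f`, given the random
element `ω` and the points `h` queried so far. -/
noncomputable def nextLaw {n k : ℕ} (A : Algorithm n k) (ω : A.Ω) (f : Pt n → ℕ) :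
    (t : ℕ) → (Fin t → Pt n) → PMF (Pt n)
  | 0, _ => PMF.uniformOfFintype (Pt n)
  | t + 1, h => (A.choose ω t (fun i => f (h i))).nextPoint h

/-- The joint distribution of the first `t` query points, given the random element `ω`. -/
noncomputable def pathLaw {n k : ℕ} (A : Algorithm n k) (ω : A.Ω) (f : Pt n → ℕ) :
    (t : ℕ) → PMF (Fin t → Pt n)
  | 0 => PMF.pure (fun i => i.elim0)
  | t + 1 => (pathLaw A ω f t).bind (fun h =>
      (nextLaw A ω f t h).map (fun y => (Fin.snoc h y : Fin (t + 1) → Pt n)))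

/-- The probability, given `ω`, that the running time exceeds `t`: none of the first `t` query
points is a maximiser of `f`. -/
noncomputable def tailProb {n k : ℕ} (A : Algorithm n k) (ω : A.Ω) (f : Pt n → ℕ) (t : ℕ) :
    ℝ≥0∞ :=
  (pathLaw A ω f t).toOuterMeasure {h | ∀ i, ¬ IsMaximiser f (h i)}

/-- The expected running time `E[T(A, f)]`, as the integral over the random element `ω` of
`E[T | ω] = ∑ₜ Pr[T > t | ω]`. -/
noncomputable def expectedTime {n k : ℕ} (A : Algorithm n k) (f : Pt n → ℕ) : ℝ≥0∞ :=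
  letI := A.mΩ
  ∫⁻ ω, ∑' t, tailProb A ω f t ∂A.P

/-- The `k`-ary unbiased black-box complexity of OneMax. -/
noncomputable def complexity (k n : ℕ) : ℝ≥0∞ :=
  ⨅ A : Algorithm n k, ⨆ z : Pt n, expectedTime A (om z)

/-! ### The model is not vacuous -/

theorem uniform_apply {n : ℕ} (y y' : Pt n) :
    PMF.uniformOfFintype (Pt n) y = PMF.uniformOfFintype (Pt n) y' := by
  rw [PMF.uniformOfFintype_apply, PMF.uniformOfFintype_apply]

/-- The operator that samples uniformly, of any arity. -/
noncomputable def uniformOp (n j : ℕ) : UnbiasedOp n j where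
  law := fun _ => PMF.uniformOfFintype (Pt n)
  xor_inv := fun _ _ _ => uniform_apply _ _
  perm_inv := fun _ _ _ => uniform_apply _ _

instance (n k : ℕ) : Nonempty (Algorithm n k) :=
  ⟨{ Ω := Unit
     mΩ := ⊤
     P := MeasureTheory.Measure.dirac ()
     prob := by simp
     choose := fun _ _ _ => ⟨0, Nat.zero_le _, fun i => i.elim0, uniformOp n 0⟩
     meas := fun _ _ _ _ => measurable_const }⟩

/-! ### Expectations over finite types -/

/-- expectation -/
noncomputable def Ex {α : Type} [Fintype α] (p : PMF α) (F : α → ℝ) : ℝ :=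
  ∑ a, (p a).toReal * F a

section Ex
variable {α β : Type} [Fintype α] [Fintype β]

theorem sum_toReal (p : PMF α) : ∑ a, (p a).toReal = 1 := by
  rw [← ENNReal.toReal_sum (fun a _ => p.apply_ne_top a)]
  have := p.tsum_coe
  rw [tsum_fintype] at this
  rw [this]
  simp

theorem Ex_const (p : PMF α) (c : ℝ) : Ex p (fun _ => c) = c := by
  unfold Ex
  rw [← Finset.sum_mul, sum_toReal, one_mul]

theorem Ex_mono (p : PMF α) {F G : α → ℝ} (h : ∀ a, F a ≤ G a) : Ex p F ≤ Ex p G :=
  Finset.sum_le_sum (fun a _ => mul_le_mul_of_nonneg_left (h a) ENNReal.toReal_nonneg)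

theorem Ex_sub (p : PMF α) (F G : α → ℝ) : Ex p (fun a => F a - G a) = Ex p F - Ex p G := by
  unfold Ex
  rw [← Finset.sum_sub_distrib]
  exact Finset.sum_congr rfl (fun a _ => by ring)

theorem Ex_mul_const (p : PMF α) (F : α → ℝ) (c : ℝ) :
    Ex p (fun a => F a * c) = Ex p F * c := by
  unfold Ex
  rw [Finset.sum_mul]
  exact Finset.sum_congr rfl (fun a _ => by ring)

theorem Ex_bind (p : PMF α) (g : α → PMF β) (F : β → ℝ) :
    Ex (p.bind g) F = Ex p (fun a => Ex (g a) F) := by
  unfold Ex
  have h1 : ∀ b, ((p.bind g) b).toReal = ∑ a, (p a).toReal * (g a b).toReal := by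
    intro b
    rw [PMF.bind_apply, tsum_fintype, ENNReal.toReal_sum]
    · exact Finset.sum_congr rfl (fun a _ => ENNReal.toReal_mul)
    · intro a _
      exact ENNReal.mul_ne_top (p.apply_ne_top a) ((g a).apply_ne_top b)
  simp only [h1, Finset.sum_mul, Finset.mul_sum]
  rw [Finset.sum_comm]
  exact Finset.sum_congr rfl (fun a _ => Finset.sum_congr rfl (fun b _ => by ring))

theorem Ex_pure (a : α) (F : α → ℝ) : Ex (PMF.pure a) F = F a := by
  classical
  unfold Ex
  rw [Finset.sum_eq_single a]
  · simp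
  · intro b _ hb
    simp [PMF.pure_apply, hb]
  · intro h
    exact absurd (Finset.mem_univ a) h

theorem Ex_map (p : PMF α) (φ : α → β) (F : β → ℝ) :
    Ex (p.map φ) F = Ex p (fun a => F (φ a)) := by
  unfold PMF.map
  rw [Ex_bind]
  congr 1
  funext a
  exact Ex_pure _ _

end Ex

/-! ### Points as sign vectors -/

open Pool.Agent.Helper143.OneMax (ip pr Z Dq Qd Phi Bdd ind sw Inv)

/-- sign vector of a point relative to the target -/
def sg {n : ℕ} (z x : Pt n) : Fin n → ℝ := fun k => if x k = z k then 1 else -1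

/-- a virtual extra point agreeing with the target in every second coordinate -/
def virt {n : ℕ} (z : Pt n) : Pt n := fun k => if Even k.val then z k else !(z k)

/-- list of all sign vectors -/
noncomputable def lst {n t : ℕ} (z : Pt n) (h : Fin t → Pt n) : List (Fin n → ℝ) :=
  sg z (virt z) :: List.ofFn (fun i => sg z (h i))

theorem lst_ne {n t : ℕ} (z : Pt n) (h : Fin t → Pt n) : lst z h ≠ [] := by simp [lst]

theorem sg_abs {n : ℕ} (z x : Pt n) (k : Fin n) : |sg z x k| ≤ 1 := by
  unfold sg; split_ifs <;> simp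

theorem sg_sq {n : ℕ} (z x : Pt n) (k : Fin n) : sg z x k ^ 2 = 1 := by
  unfold sg; split_ifs <;> simp

theorem lst_bdd {n t : ℕ} (z : Pt n) (h : Fin t → Pt n) : Bdd (lst z h) := by
  intro v hv
  rcases List.mem_cons.1 hv with rfl | hv
  · exact sg_abs z _
  · rw [List.mem_ofFn] at hv
    obtain ⟨i, rfl⟩ := hv
    exact sg_abs z _

theorem mem_lst {n t : ℕ} (z : Pt n) (h : Fin t → Pt n) (i : Fin t) : sg z (h i) ∈ lst z h :=
  List.mem_cons_of_mem _ (List.mem_ofFn.2 ⟨i, rfl⟩)

theorem virt_mem_lst {n t : ℕ} (z : Pt n) (h : Fin t → Pt n) : sg z (virt z) ∈ lst z h :=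
  List.mem_cons_self

theorem Phi_congr {ι : Type} [Fintype ι] [DecidableEq ι] {L L' : List (ι → ℝ)}
    (h : ∀ q, Z L q = Z L' q) : Phi L = Phi L' := by
  unfold Phi
  congr 1
  funext q
  unfold Dq
  rw [h q]

theorem Z_ofFn {ι : Type} [Fintype ι] [DecidableEq ι] {t : ℕ} (g : Fin t → (ι → ℝ)) (q : ι → ℝ) :
    Z (List.ofFn g) q = ∑ i, pr q (g i) := by
  unfold Z
  rw [List.map_ofFn, List.sum_ofFn]
  rfl

theorem Phi_snoc {n t : ℕ} (z : Pt n) (h : Fin t → Pt n) (y : Pt n) :
    Phi (lst z (Fin.snoc h y : Fin (t + 1) → Pt n)) = Phi (sg z y :: lst z h) := by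
  apply Phi_congr
  intro q
  unfold lst
  rw [Pool.Agent.Helper143.OneMax.Z_cons, Pool.Agent.Helper143.OneMax.Z_cons,
    Pool.Agent.Helper143.OneMax.Z_cons, Z_ofFn, Z_ofFn, Fin.sum_univ_castSucc]
  simp only [Fin.snoc_castSucc, Fin.snoc_last]
  ring

/-! ### One query of an unbiased operator -/

/-- flipping is a bijection -/
def xorEquiv {n : ℕ} (x : Pt n) : Equiv.Perm (Pt n) where
  toFun := fun f => xorPt x f
  invFun := fun f => xorPt x f
  left_inv := fun f => by funext k; simp [xorPt]
  right_inv := fun f => by funext k; simp [xorPt]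

theorem sg_xor {n : ℕ} (z x f : Pt n) :
    sg z (xorPt x f) = fun k => sg z x k * (1 - 2 * ind f k) := by
  funext k
  unfold sg xorPt ind
  cases x k <;> cases z k <;> cases f k <;> norm_num

theorem op_inv {n j : ℕ} (op : UnbiasedOp n j) (x : Fin j → Pt n) (x0 : Pt n) (k l : Fin n)
    (hx : ∀ i, xor (x i k) (x0 k) = xor (x i l) (x0 l)) (f : Pt n) :
    op.law x (xorPt x0 (sw k l f)) = op.law x (xorPt x0 f) := by
  have h1 := op.xor_inv x x0 (xorPt x0 (sw k l f))
  have h2 := op.xor_inv x x0 (xorPt x0 f)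
  rw [← h1, ← h2]
  have e1 : xorPt (xorPt x0 (sw k l f)) x0 = permPt (Equiv.swap k l) f := by
    funext i
    simp only [xorPt, permPt, sw]
    cases x0 i <;> cases f (Equiv.swap k l i) <;> rfl
  have e2 : xorPt (xorPt x0 f) x0 = f := by
    funext i
    simp only [xorPt]
    cases x0 i <;> cases f i <;> rfl
  rw [e1, e2]
  have h3 := op.perm_inv (fun i => xorPt (x i) x0) (Equiv.swap k l) f
  rw [← h3]
  congr 1
  congr 1
  funext i m
  simp only [permPt, xorPt]
  by_cases hk : m = k
  · subst hk
    rw [Equiv.swap_apply_left]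
    exact hx i
  · by_cases hl : m = l
    · subst hl
      rw [Equiv.swap_apply_right]
      exact (hx i).symm
    · rw [Equiv.swap_apply_of_ne_of_ne hk hl]

theorem query {n j : ℕ} (op : UnbiasedOp n j) (x : Fin j → Pt n) (z x0 x1 : Pt n)
    (hx : ∀ i, x i = x0 ∨ x i = x1) {L : List (Fin n → ℝ)} (hL : L ≠ []) (hB : Bdd L)
    (h0 : sg z x0 ∈ L) (h1 : sg z x1 ∈ L) :
    Phi L - 50 ≤ Ex (op.law x) (fun y => Phi (sg z y :: L)) := by
  classical
  set D : Finset (Fin n) := Finset.univ.filter (fun k => x0 k ≠ x1 k) with hD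
  set w : (Fin n → Bool) → ℝ := fun f => (op.law x (xorPt x0 f)).toReal with hw
  have hinv : ∀ k l : Fin n, (x0 k = x1 k ↔ x0 l = x1 l) → ∀ f, w (sw k l f) = w f := by
    intro k l hkl f
    simp only [hw]
    rw [op_inv]
    intro i
    rcases hx i with h | h
    · rw [h]; simp
    · rw [h]
      revert hkl
      cases x0 k <;> cases x1 k <;> cases x0 l <;> cases x1 l <;> simp
  have hwD : Inv D w := by
    intro k hk l hl f
    simp only [hD, Finset.mem_filter, Finset.mem_univ, true_and] at hk hl
    exact hinv k l (by simp [hk, hl]) f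
  have hwA : Inv Dᶜ w := by
    intro k hk l hl f
    simp only [hD, Finset.mem_compl, Finset.mem_filter, Finset.mem_univ, true_and, not_not]
      at hk hl
    exact hinv k l (by simp [hk, hl]) f
  have hsum : ∑ f, w f = 1 := by
    have := sum_toReal (op.law x)
    rw [← Equiv.sum_comp (xorEquiv x0)] at this
    exact this
  have h := Pool.Agent.Helper143.OneMax.step hL hB D (sg z x0) (sg z x1) h0 h1 (sg_sq z x0)
    (by
      intro k
      simp only [hD, Finset.mem_filter, Finset.mem_univ, true_and, sg]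
      cases x0 k <;> cases x1 k <;> cases z k <;> simp)
    w (fun f => ENNReal.toReal_nonneg) hwD hwA hsum
  refine h.trans (le_of_eq ?_)
  unfold Ex
  rw [← Equiv.sum_comp (xorEquiv x0) (fun y => (op.law x y).toReal * Phi (sg z y :: L))]
  refine Finset.sum_congr rfl (fun f _ => ?_)
  have : (xorEquiv x0) f = xorPt x0 f := rfl
  rw [this, sg_xor]

theorem choice_step {n t : ℕ} (c : Choice n 2 t) (h : Fin t → Pt n) (z : Pt n) :
    Phi (lst z h) - 50 ≤ Ex (c.nextPoint h) (fun y => Phi (sg z y :: lst z h)) := by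
  obtain ⟨j, hj, par, op⟩ := c
  unfold Choice.nextPoint
  simp only
  interval_cases j
  · exact query op _ z (virt z) (virt z) (fun i => i.elim0) (lst_ne z h) (lst_bdd z h)
      (virt_mem_lst z h) (virt_mem_lst z h)
  · exact query op _ z (h (par 0)) (h (par 0)) (fun i => by
      left; congr 2; exact Subsingleton.elim _ _) (lst_ne z h) (lst_bdd z h)
      (mem_lst z h _) (mem_lst z h _)
  · exact query op _ z (h (par 0)) (h (par 1)) (fun i => by
      fin_cases i
      · left; rfl
      · right; rfl) (lst_ne z h) (lst_bdd z h)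
      (mem_lst z h _) (mem_lst z h _)

theorem next_step {n : ℕ} (A : Algorithm n 2) (ω : A.Ω) (f : Pt n → ℕ) (t : ℕ)
    (h : Fin t → Pt n) (z : Pt n) :
    Phi (lst z h) - 50 ≤ Ex (nextLaw A ω f t h) (fun y => Phi (sg z y :: lst z h)) := by
  cases t with
  | zero =>
    exact query (uniformOp n 0) (fun i => i.elim0) z (virt z) (virt z) (fun i => i.elim0)
      (lst_ne z h) (lst_bdd z h) (virt_mem_lst z h) (virt_mem_lst z h)
  | succ t => exact choice_step _ h z

/-! ### The whole run -/

theorem om_max_iff {n : ℕ} (z y : Pt n) : IsMaximiser (om z) y ↔ y = z := by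
  have hz : om z z = n := by simp [om]
  constructor
  · intro h
    have h1 := h z
    rw [hz] at h1
    have h2 : om z y ≤ n := by
      unfold om
      calc _ ≤ (Finset.univ : Finset (Fin n)).card := Finset.card_filter_le _ _
        _ = n := by simp
    have h3 : (Finset.univ.filter (fun i => y i = z i)).card = (Finset.univ : Finset (Fin n)).card := by
      rw [Finset.card_univ, Fintype.card_fin]
      exact le_antisymm h2 h1
    have h4 := (Finset.card_filter_eq_iff).1 h3
    funext i
    exact h4 i (Finset.mem_univ i)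
  · rintro rfl
    intro x
    rw [hz]
    unfold om
    calc _ ≤ (Finset.univ : Finset (Fin n)).card := Finset.card_filter_le _ _
      _ = n := by simp

open Classical in
/-- indicator that the target has not been queried -/
noncomputable def gd {n t : ℕ} (z : Pt n) (h : Fin t → Pt n) : ℝ :=
  if ∀ i, h i ≠ z then 1 else 0

/-- real tail probability -/
noncomputable def sv {n : ℕ} (A : Algorithm n 2) (ω : A.Ω) (z : Pt n) (t : ℕ) : ℝ :=
  Ex (pathLaw A ω (om z) t) (gd z)

theorem tail_toReal {n : ℕ} (A : Algorithm n 2) (ω : A.Ω) (z : Pt n) (t : ℕ) :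
    (tailProb A ω (om z) t).toReal = sv A ω z t := by
  classical
  unfold tailProb sv Ex
  rw [PMF.toOuterMeasure_apply_fintype, ENNReal.toReal_sum]
  · refine Finset.sum_congr rfl (fun h _ => ?_)
    unfold gd
    rw [Set.indicator_apply]
    have : (h ∈ {h : Fin t → Pt n | ∀ i, ¬ IsMaximiser (om z) (h i)}) ↔ ∀ i, h i ≠ z := by
      simp only [Set.mem_ofPred_eq, om_max_iff, ne_eq]
    by_cases hh : ∀ i, h i ≠ z
    · rw [if_pos (this.2 hh), if_pos hh, mul_one]
    · rw [if_neg (fun hc => hh (this.1 hc)), if_neg hh]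
      simp
  · intro h _
    rw [Set.indicator_apply]
    split_ifs
    · exact PMF.apply_ne_top _ _
    · exact ENNReal.zero_ne_top

theorem gd_nonneg {n t : ℕ} (z : Pt n) (h : Fin t → Pt n) : 0 ≤ gd z h := by
  unfold gd; split_ifs <;> norm_num

theorem sg_self {n : ℕ} (z : Pt n) : sg z z = fun _ => 1 := by
  funext k; simp [sg]

/-- weighted potential -/
noncomputable def av {n : ℕ} (A : Algorithm n 2) (ω : A.Ω) (z : Pt n) (t : ℕ) : ℝ :=
  Ex (pathLaw A ω (om z) t) (fun h => gd z h * Phi (lst z h))

theorem av_succ {n : ℕ} (A : Algorithm n 2) (ω : A.Ω) (z : Pt n) (t : ℕ) :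
    av A ω z t - 50 * sv A ω z t ≤ av A ω z (t + 1) := by
  unfold av sv
  have h1 : Ex (pathLaw A ω (om z) (t + 1)) (fun h => gd z h * Phi (lst z h))
      = Ex (pathLaw A ω (om z) t) (fun h => Ex (nextLaw A ω (om z) t h)
        (fun y => gd z (Fin.snoc h y : Fin (t + 1) → Pt n)
          * Phi (lst z (Fin.snoc h y : Fin (t + 1) → Pt n)))) := by
    rw [pathLaw, Ex_bind]
    congr 1
    funext h
    rw [Ex_map]
  rw [h1]
  have h2 : Ex (pathLaw A ω (om z) t) (fun h => gd z h * Phi (lst z h))
      - 50 * Ex (pathLaw A ω (om z) t) (gd z)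
      = Ex (pathLaw A ω (om z) t) (fun h => gd z h * Phi (lst z h) - gd z h * 50) := by
    rw [Ex_sub, Ex_mul_const]
    ring
  rw [h2]
  refine Ex_mono _ (fun h => ?_)
  by_cases hh : ∀ i, h i ≠ z
  · have hg : gd z h = 1 := by unfold gd; rw [if_pos hh]
    rw [hg, one_mul, one_mul]
    refine (next_step A ω (om z) t h z).trans (Ex_mono _ (fun y => ?_))
    rw [Phi_snoc]
    by_cases hy : y = z
    · have h3 : Phi (sg z y :: lst z h) ≤ 0 := by
        rw [hy, sg_self]
        exact Pool.Agent.Helper143.OneMax.Phi_nonpos List.mem_cons_self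
      have h4 : gd z (Fin.snoc h y : Fin (t + 1) → Pt n) = 0 := by
        unfold gd
        rw [if_neg]
        intro hc
        have := hc (Fin.last t)
        rw [Fin.snoc_last] at this
        exact this hy
      rw [h4, zero_mul]
      exact h3
    · have h4 : gd z (Fin.snoc h y : Fin (t + 1) → Pt n) = 1 := by
        unfold gd
        rw [if_pos]
        intro i
        refine Fin.lastCases ?_ (fun i => ?_) i
        · rw [Fin.snoc_last]; exact hy
        · rw [Fin.snoc_castSucc]; exact hh i
      rw [h4, one_mul]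
  · have hg : gd z h = 0 := by unfold gd; rw [if_neg hh]
    rw [hg, zero_mul, zero_mul, sub_zero]
    have h5 : ∀ y, gd z (Fin.snoc h y : Fin (t + 1) → Pt n) = 0 := by
      intro y
      unfold gd
      rw [if_neg]
      intro hc
      apply hh
      intro i
      have := hc i.castSucc
      rwa [Fin.snoc_castSucc] at this
    simp only [h5, zero_mul]
    rw [Ex_const]

theorem Phi_virt {n : ℕ} (z : Pt n) (h : Fin 0 → Pt n) : (n : ℝ) - 14 ≤ Phi (lst z h) := by
  have h1 := Pool.Agent.Helper143.OneMax.Dq_le_Phi (lst_ne z h) (fun _ => (1 : ℝ))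
  refine le_trans ?_ h1
  unfold Dq
  have h2 : Qd (fun _ : Fin n => (1 : ℝ)) = n := by
    unfold Qd
    norm_num
  have h3 : ip (fun _ : Fin n => (1 : ℝ)) (sg z (virt z)) = if Even n then 0 else 1 := by
    have e1 : ip (fun _ : Fin n => (1 : ℝ)) (sg z (virt z)) = ∑ k : Fin n, (-1 : ℝ) ^ (k : ℕ) := by
      unfold ip
      refine Finset.sum_congr rfl (fun k _ => ?_)
      unfold sg virt
      rcases Nat.even_or_odd k.val with hk | hk
      · simp [hk, hk.neg_one_pow]
      · have hk' : ¬ Even k.val := Nat.not_even_iff_odd.2 hk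
        simp only [if_neg hk', one_mul, hk.neg_one_pow]
        cases z k <;> simp
    rw [e1, ← Finset.sum_range (fun k => (-1 : ℝ) ^ k)]
    exact neg_one_geom_sum
  have h4 : Z (lst z h) (fun _ => 1) = pr (fun _ => 1) (sg z (virt z)) := by
    unfold lst
    rw [Pool.Agent.Helper143.OneMax.Z_cons, Z_ofFn]
    simp
  have h5 : pr (fun _ => 1) (sg z (virt z)) ≤ 2 * Real.exp (1 / 8) := by
    unfold pr
    rw [h3]
    split_ifs
    · have := Real.add_one_le_exp (1 / 8 : ℝ)
      simp
      linarith
    · have : Real.exp (-1 / 8) ≤ Real.exp (1 / 8) := Real.exp_le_exp.2 (by norm_num)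
      linarith
  have h6 : Real.log (Z (lst z h) (fun _ => 1)) ≤ Real.log 2 + 1 / 8 := by
    rw [h4]
    have := Real.log_le_log (Pool.Agent.Helper143.OneMax.pr_pos _ _) h5
    rwa [Real.log_mul (by norm_num) (Real.exp_pos _).ne', Real.log_exp] at this
  have h7 := Real.log_two_lt_d9
  rw [h2]
  linarith

theorem av_zero {n : ℕ} (A : Algorithm n 2) (ω : A.Ω) (z : Pt n) : (n : ℝ) - 14 ≤ av A ω z 0 := by
  unfold av
  rw [pathLaw, Ex_pure]
  have : gd z (fun i : Fin 0 => (i.elim0 : Pt n)) = 1 := by
    unfold gd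
    rw [if_pos (fun i => i.elim0)]
  rw [this, one_mul]
  exact Phi_virt z _

theorem sv_zero {n : ℕ} (A : Algorithm n 2) (ω : A.Ω) (z : Pt n) : sv A ω z 0 = 1 := by
  unfold sv
  rw [pathLaw, Ex_pure]
  unfold gd
  rw [if_pos (fun i => i.elim0)]

theorem av_le {n : ℕ} (A : Algorithm n 2) (ω : A.Ω) (z : Pt n) (t : ℕ) :
    av A ω z t ≤ n * sv A ω z t := by
  unfold av sv
  rw [mul_comm, ← Ex_mul_const]
  refine Ex_mono _ (fun h => ?_)
  refine mul_le_mul_of_nonneg_left ?_ (gd_nonneg z h)
  have := Pool.Agent.Helper143.OneMax.Phi_le (lst_ne z h)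
  simpa using this

theorem main_ineq {n : ℕ} (A : Algorithm n 2) (ω : A.Ω) (z : Pt n) (t : ℕ) :
    (n : ℝ) - 14 - 50 * ∑ s ∈ Finset.range t, sv A ω z s ≤ n * sv A ω z t := by
  refine le_trans ?_ (av_le A ω z t)
  induction t with
  | zero => simpa using av_zero A ω z
  | succ t ih =>
    rw [Finset.sum_range_succ]
    have := av_succ A ω z t
    linarith

theorem time_ge {n : ℕ} (A : Algorithm n 2) (ω : A.Ω) (z : Pt n) :
    (n : ℝ≥0∞) / 64 ≤ ∑' t, tailProb A ω (om z) t := by
  by_cases htop : ∑' t, tailProb A ω (om z) t = ⊤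
  · rw [htop]; exact le_top
  have hne : ∀ t, tailProb A ω (om z) t ≠ ⊤ := ENNReal.ne_top_of_tsum_ne_top htop
  set S : ℝ := (∑' t, tailProb A ω (om z) t).toReal with hS
  have hsum : ∀ t, ∑ s ∈ Finset.range t, sv A ω z s ≤ S := by
    intro t
    have h1 : ∑ s ∈ Finset.range t, tailProb A ω (om z) s ≤ ∑' t, tailProb A ω (om z) t :=
      ENNReal.sum_le_tsum _
    have h2 := ENNReal.toReal_mono htop h1
    rw [ENNReal.toReal_sum (fun s _ => hne s)] at h2
    simpa only [tail_toReal] using h2
  have hlim : Filter.Tendsto (fun t => sv A ω z t) Filter.atTop (nhds 0) := by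
    have h1 := ENNReal.tendsto_atTop_zero_of_tsum_ne_top htop
    have h2 := (ENNReal.tendsto_toReal (ENNReal.zero_ne_top)).comp h1
    simpa [Function.comp_def, tail_toReal] using h2
  have h1 : ∀ t, (n : ℝ) - 14 - 50 * S ≤ n * sv A ω z t := by
    intro t
    have := main_ineq A ω z t
    have := hsum t
    linarith
  have h2 : (n : ℝ) - 14 - 50 * S ≤ n * 0 :=
    ge_of_tendsto' (hlim.const_mul (n : ℝ)) h1
  have h3 : 1 ≤ S := by
    have := hsum 1
    simpa [sv_zero] using this
  have h4 : (n : ℝ) / 64 ≤ S := by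
    rw [mul_zero] at h2
    rcases le_total (n : ℝ) 64 with h | h
    · linarith
    · linarith
  have h5 : (n : ℝ≥0∞) / 64 = ENNReal.ofReal ((n : ℝ) / 64) := by
    rw [ENNReal.ofReal_div_of_pos (by norm_num), ENNReal.ofReal_natCast]
    norm_num
  rw [h5]
  exact (ENNReal.ofReal_le_iff_le_toReal htop).2 h4

/-- **Theorem.** The binary unbiased black-box complexity of OneMax is at least `n / 64`, for every
`n`; in particular it is `Ω(n)`. -/
theorem result : ∀ n : ℕ, (n : ℝ≥0∞) / 64 ≤ complexity 2 n := by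
  intro n
  unfold complexity
  refine le_iInf (fun A => ?_)
  refine le_trans ?_ (le_iSup (fun z : Pt n => expectedTime A (om z)) (fun _ => false))
  unfold expectedTime
  letI := A.mΩ
  calc (n : ℝ≥0∞) / 64 = ∫⁻ _ω, (n : ℝ≥0∞) / 64 ∂A.P := by
        rw [MeasureTheory.lintegral_const, A.prob, mul_one]
    _ ≤ _ := MeasureTheory.lintegral_mono (fun ω => time_ge A ω _)

end Pool.Agent.Results.MP_f3079c_lc.BinaryLinear
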