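import Pool.Agent.Helper860.BUMain

/-!
The binary unbiased black-box complexity `B(n)` of `OneMax_n` is at least linear in `n`.

Idea of the proof (files `BUSlice`, `BUWeights`, `BUPot`, `BUStep`, `BUMain`): even a chooser who
knows the target `z` and all queried points needs a linear number of queries.  Encode points as
sign vectors, let `K` be the absolutely convex hull of the queried points (with one virtual
starting point) and let the potential be the weighted square distance from the target vector to
`K`, where the weights are the largest ones (powers of `1/2`) for which no coordinate has weighted
leverage above `1/32` on the span of the points.  A binary unbiased operator produces a point of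
the form (mean in `K`) + (centred fluctuation), and second moment bounds for swap-invariant
distributions on slices show that the potential drops by at most a constant in expectation.
-/

namespace Pool.Agent.Results.MP_f3079c_lc.LinearLowerBound

/-- `B(n) = Ω(n)`. -/
theorem result : ∃ c : ℝ, 0 < c ∧ ∃ N : ℕ, ∀ n : ℕ, N ≤ n →
    ENNReal.ofReal (c * (n : ℝ)) ≤ UBB.B n :=
  ⟨1 / 4000, by norm_num, 2000, fun _ hn => UBB.B_lower hn⟩

end Pool.Agent.Results.MP_f3079c_lc.LinearLowerBound
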